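import Pool.Agent.H86.DB.Targets
import Pool.Agent.H15.CX.GeomRed
import Pool.Agent.H15.CX.Split

/-!
# Degenerations along jets through a ramified smoothing
-/

open TensorProduct Module PowerSeries

namespace Pool.Agent.H14.DB

open Pool.Agent.H12.Defect Pool.Agent.H15.Defect Pool.Agent.H15.CX Pool.Agent.H86.DB

universe u

section ram

variable (k : Type u) [Field k] (e : ℕ) (he : e ≠ 0)

/-- The ring of power series as an algebra over itself by `X ↦ X ^ e`. -/
def RamE (_ : e ≠ 0) : Type u := PowerSeries k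

noncomputable instance : CommRing (RamE k e he) := inferInstanceAs (CommRing (PowerSeries k))

noncomputable instance : Algebra (PowerSeries k) (RamE k e he) :=
  RingHom.toAlgebra (S := RamE k e he) (expand e he : PowerSeries k →ₐ[k] PowerSeries k).toRingHom

/-- The algebraic closure as an algebra over the ramified ring. -/
def OmE (_ : e ≠ 0) : Type u := Om k

noncomputable instance : Field (OmE k e he) := inferInstanceAs (Field (Om k))

noncomputable instance : Algebra (RamE k e he) (OmE k e he) :=
  inferInstanceAs (Algebra (PowerSeries k) (Om k))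

noncomputable instance : Algebra (PowerSeries k) (OmE k e he) :=
  ((algebraMap (RamE k e he) (OmE k e he)).comp (algebraMap (PowerSeries k) (RamE k e he))).toAlgebra

instance : IsScalarTower (PowerSeries k) (RamE k e he) (OmE k e he) :=
  IsScalarTower.of_algebraMap_eq fun _ => rfl

theorem algebraMap_omE_injective :
    Function.Injective (algebraMap (PowerSeries k) (OmE k e he)) := by
  have h1 : Function.Injective (algebraMap (RamE k e he) (OmE k e he)) :=
    algebraMap_om_injective (k := k)
  have h2 : Function.Injective (algebraMap (PowerSeries k) (RamE k e he)) := by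
    intro f g hfg
    have h3 : expand e he f = expand e he g := hfg
    ext n
    have := congrArg (coeff (e * n)) h3
    rwa [coeff_expand_mul, coeff_expand_mul] at this
  exact h1.comp h2

variable (𝒜 : Type u) [CommRing 𝒜] [Algebra (PowerSeries k) 𝒜]

/-- The ramified base change of a family over `k⟦X⟧`. -/
def RmE : Type u := RamE k e he ⊗[PowerSeries k] 𝒜

noncomputable instance : CommRing (RmE k e he 𝒜) :=
  inferInstanceAs (CommRing (RamE k e he ⊗[PowerSeries k] 𝒜))

noncomputable instance : Algebra (PowerSeries k) (RmE k e he 𝒜) :=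
  inferInstanceAs (Algebra (RamE k e he) (RamE k e he ⊗[PowerSeries k] 𝒜))

instance [Module.Finite (PowerSeries k) 𝒜] : Module.Finite (PowerSeries k) (RmE k e he 𝒜) :=
  inferInstanceAs (Module.Finite (RamE k e he) (RamE k e he ⊗[PowerSeries k] 𝒜))

instance [Module.Free (PowerSeries k) 𝒜] : Module.Free (PowerSeries k) (RmE k e he 𝒜) :=
  inferInstanceAs (Module.Free (RamE k e he) (RamE k e he ⊗[PowerSeries k] 𝒜))

theorem finrank_rmE [Module.Free (PowerSeries k) 𝒜] :
    finrank (PowerSeries k) (RmE k e he 𝒜) = finrank (PowerSeries k) 𝒜 := by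
  have hnt : Nontrivial (RamE k e he) := inferInstanceAs (Nontrivial (PowerSeries k))
  have h1 : finrank (RamE k e he) (RamE k e he ⊗[PowerSeries k] 𝒜) =
      finrank (PowerSeries k) 𝒜 :=
    Module.finrank_baseChange
  exact h1

theorem isReduced_rmE [Module.Finite (PowerSeries k) 𝒜]
    (hred : IsReduced (Om k ⊗[PowerSeries k] 𝒜)) :
    IsReduced (Om k ⊗[PowerSeries k] (RmE k e he 𝒜)) := by
  have h1 : IsReduced (OmE k e he ⊗[PowerSeries k] 𝒜) :=
    isReduced_of_field' hred (OmE k e he) (algebraMap_omE_injective k e he)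
  let e' := Algebra.TensorProduct.cancelBaseChange (PowerSeries k) (RamE k e he) (OmE k e he)
    (OmE k e he) 𝒜
  have h2 : IsReduced (OmE k e he ⊗[RamE k e he] (RamE k e he ⊗[PowerSeries k] 𝒜)) :=
    isReduced_of_injective e' e'.injective
  exact h2

end ram

section jet

variable {k : Type u} [Field k] (E : Type u) [CommRing E] [Algebra k E] (e : ℕ)

theorem mk_eq_mk_of_coeff {f g : PowerSeries E} (h : ∀ m, m < e → coeff m f = coeff m g) :
    (Ideal.Quotient.mk (Ideal.span {(X : PowerSeries E) ^ e}) f : Jet E e) =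
      Ideal.Quotient.mk _ g := by
  rw [Ideal.Quotient.eq, Ideal.mem_span_singleton, X_pow_dvd_iff]
  intro m hm
  rw [map_sub, h m hm, sub_self]

theorem mk_eq_sum (f : PowerSeries E) :
    (Ideal.Quotient.mk (Ideal.span {(X : PowerSeries E) ^ e}) f : Jet E e) =
      ∑ i ∈ Finset.range e, Ideal.Quotient.mk _ (C (coeff i f)) * jX E e ^ i := by
  have h1 : ∑ i ∈ Finset.range e,
      (Ideal.Quotient.mk (Ideal.span {(X : PowerSeries E) ^ e}) (C (coeff i f)) : Jet E e) *
        jX E e ^ i = Ideal.Quotient.mk _ (∑ i ∈ Finset.range e, C (coeff i f) * X ^ i) := by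
    rw [map_sum]
    refine Finset.sum_congr rfl fun i _ => ?_
    rw [map_mul, map_pow]
  rw [h1]
  apply mk_eq_mk_of_coeff
  intro m hm
  rw [map_sum, Finset.sum_eq_single_of_mem m (Finset.mem_range.mpr hm)]
  · rw [coeff_C_mul, coeff_X_pow_self, mul_one]
  · intro i _ hi
    rw [coeff_C_mul, coeff_X_pow, if_neg hi.symm, mul_zero]

/-- The homomorphism `k⟦X⟧ → E⟦X⟧ / X ^ e`. -/
noncomputable def toJet : PowerSeries k →+* Jet E e :=
  (Ideal.Quotient.mk _).comp (PowerSeries.map (algebraMap k E))

theorem toJet_X : toJet (k := k) E e X = jX E e := by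
  show Ideal.Quotient.mk _ (PowerSeries.map (algebraMap k E) X) = _
  rw [PowerSeries.map_X]

theorem algebraMap_jet (c : k) : algebraMap k (Jet E e) c =
    Ideal.Quotient.mk _ (C (algebraMap k E c)) := by
  have h1 : algebraMap k (Jet E e) c =
    Ideal.Quotient.mk _ (algebraMap k (PowerSeries E) c) := rfl
  rw [h1, PowerSeries.algebraMap_apply]

theorem toJet_C (c : k) : toJet (k := k) E e (C c) = algebraMap k (Jet E e) c := by
  show Ideal.Quotient.mk _ (PowerSeries.map (algebraMap k E) (C c)) = _
  rw [PowerSeries.map_C, algebraMap_jet]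

theorem toJet_expand (he : e ≠ 0) (r : PowerSeries k) :
    toJet (k := k) E e (expand e he r) = algebraMap k (Jet E e) (constantCoeff r) := by
  rw [algebraMap_jet]
  apply mk_eq_mk_of_coeff
  intro m hm
  rw [coeff_map, coeff_expand]
  by_cases h0 : m = 0
  · subst h0
    simp
  · have h1 : ¬ e ∣ m := fun h2 => h0 (Nat.eq_zero_of_dvd_of_lt h2 hm)
    rw [if_neg h1, map_zero, coeff_C, if_neg h0]

theorem toJet_mem (S : Subalgebra k (Jet E e)) (h : jX E e ∈ S) (r : PowerSeries k) :
    toJet E e r ∈ S := by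
  show (Ideal.Quotient.mk _ (PowerSeries.map (algebraMap k E) r) : Jet E e) ∈ S
  rw [mk_eq_sum]
  refine S.sum_mem fun i _ => S.mul_mem ?_ (S.pow_mem h i)
  rw [coeff_map, ← algebraMap_jet]
  exact S.algebraMap_mem _

end jet

section main

variable {k : Type u} [Field k] {E H 𝒜 : Type u} [CommRing E] [Algebra k E] [CommRing H]
  [Algebra k H] [CommRing 𝒜] [Algebra (PowerSeries k) 𝒜] {π : 𝒜 →+* H}

/-- The reduction of the ramified base change modulo `X ^ e`. -/
noncomputable def redJet (e : ℕ) (he : e ≠ 0) (h : IsModel k π) (p : H →ₐ[k] E) :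
    RmE k e he 𝒜 →+* Jet E e :=
  letI : Algebra (PowerSeries k) (Jet E e) := constAlg k _
  letI f : RamE k e he →ₐ[PowerSeries k] Jet E e :=
    { (toJet E e : PowerSeries k →+* Jet E e) with
      commutes' := by
        intro r
        exact toJet_expand E e he r }
  letI g : 𝒜 →ₐ[PowerSeries k] Jet E e :=
    { (((Ideal.Quotient.mk (Ideal.span {(X : PowerSeries E) ^ e})).comp
        (C : E →+* PowerSeries E)).comp (p : H →+* E)).comp π with
      commutes' := by
        intro r
        have h1 : π (algebraMap (PowerSeries k) 𝒜 r) = algebraMap k H (constantCoeff r) := by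
          have := h.smul r 1
          rwa [Algebra.smul_def, mul_one, map_one, ← Algebra.algebraMap_eq_smul_one] at this
        show Ideal.Quotient.mk _ (C (p (π (algebraMap (PowerSeries k) 𝒜 r)))) =
          algebraMap k (Jet E e) (constantCoeff r)
        rw [h1, AlgHom.commutes]
        exact (algebraMap_jet E e _).symm }
  (Algebra.TensorProduct.productMap f g :
    RamE k e he ⊗[PowerSeries k] 𝒜 →ₐ[PowerSeries k] Jet E e).toRingHom

variable (e : ℕ) (he : e ≠ 0)

/-- pure tensors -/
noncomputable def pj (r : PowerSeries k) (a : 𝒜) : RmE k e he 𝒜 :=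
  ((show RamE k e he from r) ⊗ₜ[PowerSeries k] a : RamE k e he ⊗[PowerSeries k] 𝒜)

theorem redJet_tmul (h : IsModel k π) (p : H →ₐ[k] E) (r : PowerSeries k) (a : 𝒜) :
    redJet e he h p (pj e he r a) = toJet E e r * Ideal.Quotient.mk _ (C (p (π a))) := rfl

theorem redJet_algebraMap (h : IsModel k π) (p : H →ₐ[k] E) (r : PowerSeries k) :
    redJet e he h p (algebraMap (PowerSeries k) (RmE k e he 𝒜) r) = toJet E e r := by
  refine (redJet_tmul e he h p r 1).trans ?_
  rw [map_one, map_one, map_one, map_one, mul_one]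

theorem redJet_surjective (h : IsModel k π) (p : H →ₐ[k] E) (hp : Function.Surjective p) :
    Function.Surjective (redJet e he h p) := by
  intro z
  obtain ⟨f, rfl⟩ := Ideal.Quotient.mk_surjective z
  have h1 : ∀ i, ∃ a, p (π a) = coeff i f := fun i => (hp.comp h.surj) _
  choose a ha using h1
  refine ⟨∑ i ∈ Finset.range e, pj e he (X ^ i) (a i), ?_⟩
  rw [map_sum, mk_eq_sum]
  refine Finset.sum_congr rfl fun i _ => ?_
  rw [redJet_tmul, ha, map_pow, toJet_X, mul_comm]

include he in
theorem dle_of_jet {G : Type u} [CommRing G] [Algebra k G] {N : ℕ} (hE : Dle k E N)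
    (S : Subalgebra k (Jet E e)) (h : jX E e ∈ S)
    (ψ : S →ₐ[k] G) (hψ : Function.Surjective ψ) (h0 : ψ ⟨jX E e, h⟩ = 0) :
    Dle k G N := by
  obtain ⟨H, i1, i2, hH, ⟨p, hp⟩, hfr⟩ := hE
  obtain ⟨𝒜, j1, j2, π, hm⟩ := isSmoothable_iff.mp hH
  have hf := hm.finite
  have hfree := hm.free
  let ρ := redJet e he hm p
  let P : Subalgebra (PowerSeries k) (RmE k e he 𝒜) :=
    { carrier := {z | ρ z ∈ S}
      mul_mem' := by
        intro a b ha hb
        show ρ (a * b) ∈ S
        rw [map_mul]; exact S.mul_mem ha hb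
      add_mem' := by
        intro a b ha hb
        show ρ (a + b) ∈ S
        rw [map_add]; exact S.add_mem ha hb
      algebraMap_mem' := by
        intro r
        show ρ (algebraMap (PowerSeries k) (RmE k e he 𝒜) r) ∈ S
        rw [redJet_algebraMap]
        exact toJet_mem E e S h r }
  have hP : ∀ z, z ∈ P ↔ ρ z ∈ S := fun z => Iff.rfl
  obtain ⟨B, l1, l2, π', hB⟩ := exists_model_subalgebra (isReduced_rmE k e he 𝒜 hm.reduced) P
  let φ0 : P →+* S := (ρ.comp P.toSubring.subtype).codRestrict S.toSubring (fun a => a.2)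
  have hφ0 : ∀ z : P, ((φ0 z : S) : Jet E e) = ρ z.1 := fun _ => rfl
  let φ : P →+* G := (ψ : S →+* G).comp φ0
  obtain ⟨g, hg⟩ := hB.exists_lift φ (by
    have h1 : φ0 (algebraMap (PowerSeries k) P X) = ⟨jX E e, h⟩ := by
      apply Subtype.ext
      rw [hφ0]
      refine (redJet_algebraMap e he hm p X).trans ?_
      exact toJet_X E e
    show ψ (φ0 (algebraMap (PowerSeries k) P X)) = 0
    rw [h1, h0]) (by
    intro r
    have h1 : φ0 (algebraMap (PowerSeries k) P (C r)) = algebraMap k S r := by
      apply Subtype.ext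
      rw [hφ0]
      refine (redJet_algebraMap e he hm p (C r)).trans ?_
      exact toJet_C E e r
    show ψ (φ0 (algebraMap (PowerSeries k) P (C r))) = algebraMap k G r
    rw [h1, AlgHom.commutes])
  refine ⟨B, l1, l2, isSmoothable_iff.mpr ⟨_, _, _, _, hB⟩, ⟨g, ?_⟩, ?_⟩
  · intro x
    obtain ⟨s, hs⟩ := hψ x
    obtain ⟨z, hz⟩ := redJet_surjective e he hm p hp s.1
    have hz' : z ∈ P := by
      rw [hP]
      show redJet e he hm p z ∈ S
      rw [hz]
      exact s.2
    refine ⟨π' ⟨z, hz'⟩, ?_⟩
    rw [hg]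
    have h1 : φ0 ⟨z, hz'⟩ = s := by
      apply Subtype.ext
      rw [hφ0]
      exact hz
    show ψ (φ0 ⟨z, hz'⟩) = x
    rw [h1, hs]
  · rw [hB.finrank_eq]
    have h1 : finrank (PowerSeries k) P ≤ finrank (PowerSeries k) (RmE k e he 𝒜) :=
      Submodule.finrank_le (Subalgebra.toSubmodule P)
    rw [finrank_rmE, ← hm.finrank_eq] at h1
    exact h1.trans hfr

end main

theorem pf_JET : T_JET.{u} := by
  intro k _ E G _ _ _ _ N e hE S h ψ hψ h0
  by_cases he : e = 0
  · subst he
    have h1 : Subsingleton (Jet E 0) := by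
      rw [Ideal.Quotient.subsingleton_iff, pow_zero]
      exact Ideal.span_singleton_one
    have h2 : Subsingleton G := by
      refine ⟨fun a b => ?_⟩
      obtain ⟨x, rfl⟩ := hψ a
      obtain ⟨y, rfl⟩ := hψ b
      rw [Subtype.ext (Subsingleton.elim x.1 y.1)]
    exact dle_subsingleton.mono (Nat.zero_le _)
  · exact dle_of_jet e he hE S h ψ hψ h0

end Pool.Agent.H14.DB
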